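import Mathlib

/-!
Permutations avoiding `321` and the arrow pattern `(12; 1 → 3)` are counted by `F (2 n - 1)`.
Permutations are words (one-line form) on `1, …, n`.
-/

namespace Pool.Agent.Results.MP_1ce666_co.Count

open List

/-- `L` is a list of cycles in standard form: each cycle is non-empty and begins with its largest
entry, and the cycles are ordered by increasing largest entry. -/
def Std (L : List (List ℕ)) : Prop :=
  (∀ c ∈ L, c ≠ [] ∧ ∀ z ∈ c, z ≤ c.headI) ∧ (L.map List.headI).Pairwise (· < ·)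

/-- The cycle written as the word `c` sends `x` to `y`. -/
def CycNext (c : List ℕ) (x y : ℕ) : Prop :=
  (∃ p q, c = p ++ x :: y :: q) ∨ (∃ p, c = p ++ [x] ∧ y = c.headI)

/-- `Hat w x y`: the permutation whose standard cycle form becomes the word `w` after deleting the
parentheses sends `x` to `y`. -/
def Hat (w : List ℕ) (x y : ℕ) : Prop :=
  ∃ L, Std L ∧ L.flatten = w ∧ ∃ c ∈ L, CycNext c x y

/-- The word avoids `321`. -/
def Av321 (w : List ℕ) : Prop := ¬ ∃ a b c : ℕ, a < b ∧ b < c ∧ [c, b, a] <+ w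

/-- The word avoids the arrow pattern `(12; 1 → 3)`. -/
def AvArrow (w : List ℕ) : Prop :=
  ¬ ∃ x₁ x₂ x₃ : ℕ, x₁ < x₂ ∧ x₂ < x₃ ∧ [x₁, x₂] <+ w ∧ Hat w x₁ x₃

def Av3142 (w : List ℕ) : Prop :=
  ¬ ∃ a b c d : ℕ, a < b ∧ b < c ∧ c < d ∧ [c, a, d, b] <+ w

theorem split_sub {A B l1 l2 : List ℕ} {x : ℕ} (hn : (A ++ x :: B).Nodup)
    (h : l1 ++ x :: l2 <+ A ++ x :: B) : l1 <+ A ∧ l2 <+ B := by
  have hA : x ∉ A := fun hx => (List.nodup_append.1 hn).2.2 x hx x (by simp) rfl
  have hB : x ∉ B := (List.nodup_cons.1 (List.nodup_append.1 hn).2.1).1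
  obtain ⟨s, t, hst, hs, ht⟩ := List.sublist_append_iff.1 h
  have hxs : x ∉ s := fun hx => hA (hs.subset hx)
  rcases List.sublist_cons_iff.1 ht with ht | ⟨r, rfl, hr⟩
  · have hxt : x ∉ t := fun hx => hB (ht.subset hx)
    have : x ∈ s ++ t := by rw [← hst]; simp
    simp [hxs, hxt] at this
  · have hxr : x ∉ r := fun hx => hB (hr.subset hx)
    have := (List.append_cons_inj_of_notMem hxs hxr).1 hst.symm
    obtain ⟨e1, -, e2⟩ := this
    subst e1 e2
    exact ⟨hs, hr⟩

theorem exists_std (w : List ℕ) (hw : w.Nodup) : ∃ L, Std L ∧ L.flatten = w := by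
  induction w using List.reverseRecOn with
  | nil => exact ⟨[], ⟨by simp, by simp⟩, rfl⟩
  | append_singleton w z ih =>
    obtain ⟨L, ⟨h1, h2⟩, h3⟩ := ih (List.nodup_append.1 hw).1
    rcases List.eq_nil_or_concat' L with rfl | ⟨L', c, rfl⟩
    · refine ⟨[[z]], ⟨by simp, by simp⟩, ?_⟩
      simp at h3; simp [h3]
    · obtain ⟨hc, hc2⟩ := h1 c (by simp)
      by_cases hz : c.headI < z
      · refine ⟨L' ++ [c] ++ [[z]], ⟨?_, ?_⟩, by simp [← h3]⟩
        · intro d hd
          rcases List.mem_append.1 hd with hd | hd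
          · exact h1 d hd
          · simp at hd; subst hd; simp
        · rw [List.map_append, List.pairwise_append]
          refine ⟨h2, by simp, ?_⟩
          intro a ha b hb
          simp at hb; subst hb
          rw [List.map_append, List.pairwise_append] at h2
          rw [List.map_append] at ha
          rcases List.mem_append.1 ha with ha | ha
          · exact lt_trans (h2.2.2 a ha c.headI (by simp)) hz
          · simp at ha; subst ha; exact hz
      · have hh : (c ++ [z]).headI = c.headI := by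
          cases c with
          | nil => exact absurd rfl hc
          | cons a t => rfl
        refine ⟨L' ++ [c ++ [z]], ⟨?_, ?_⟩, by simp [← h3]⟩
        · intro d hd
          rcases List.mem_append.1 hd with hd | hd
          · exact h1 d (by simp [hd])
          · simp only [List.mem_singleton] at hd; subst hd
            refine ⟨by simp, ?_⟩
            intro y hy
            rw [hh]
            rcases List.mem_append.1 hy with hy | hy
            · exact hc2 y hy
            · simp at hy; omega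
        · simpa [hh] using h2

theorem std_split {L1 L2 : List (List ℕ)} {C : List ℕ} (h : Std (L1 ++ C :: L2)) :
    (∃ t, C = C.headI :: t) ∧ (∀ z ∈ C, z ≤ C.headI) ∧ (∀ z ∈ L1.flatten, z < C.headI) ∧
      (∀ z ∈ L2.flatten, z < C.headI → ∃ d, C.headI < d ∧ [d, z] <+ L2.flatten) := by
  obtain ⟨h1, h2⟩ := h
  rw [List.map_append, List.pairwise_append, List.map_cons, List.pairwise_cons] at h2
  obtain ⟨-, ⟨h3, -⟩, h4⟩ := h2
  obtain ⟨hc, hc2⟩ := h1 C (by simp)
  refine ⟨?_, hc2, ?_, ?_⟩
  · cases C with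
    | nil => exact absurd rfl hc
    | cons a t => exact ⟨t, rfl⟩
  · intro z hz
    obtain ⟨D, hD, hzD⟩ := List.mem_flatten.1 hz
    have := (h1 D (by simp [hD])).2 z hzD
    have := h4 D.headI (List.mem_map_of_mem hD) C.headI (by simp)
    omega
  · intro z hz hlt
    obtain ⟨D, hD, hzD⟩ := List.mem_flatten.1 hz
    have h5 := h3 D.headI (List.mem_map_of_mem hD)
    refine ⟨D.headI, h5, List.Sublist.trans ?_ (List.sublist_flatten_of_mem hD)⟩
    cases D with
    | nil => simp at hzD
    | cons a t =>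
      simp only [List.headI_cons] at h5 ⊢
      rcases List.mem_cons.1 hzD with rfl | hzt
      · omega
      · exact (List.singleton_sublist.2 hzt).cons_cons a

theorem arrow_iff {w : List ℕ} (hw : w.Nodup) (h321 : Av321 w) : AvArrow w ↔ Av3142 w := by
  constructor
  · rintro hA ⟨a, b, c, d, hab, hbc, hcd, hs⟩
    obtain ⟨L, hL, rfl⟩ := exists_std w hw
    have ha : a ∈ L.flatten := hs.subset (by simp)
    obtain ⟨C, hC, haC⟩ := List.mem_flatten.1 ha
    obtain ⟨L1, L2, rfl⟩ := List.append_of_mem hC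
    obtain ⟨⟨t, ht⟩, h2, h3, -⟩ := std_split hL
    obtain ⟨p, q, hpq⟩ := List.append_of_mem haC
    set h := C.headI with hh
    have e : (L1 ++ C :: L2).flatten = (L1.flatten ++ p) ++ a :: (q ++ L2.flatten) := by
      simp [hpq]
    have hs' := hs
    have hw' := hw
    rw [e] at hs' hw'
    obtain ⟨s1, s2⟩ := split_sub (l1 := [c]) (l2 := [d, b]) hw' hs'
    have hch : c ≤ h := by
      rcases List.mem_append.1 (s1.subset (List.mem_singleton_self c)) with h4 | h4
      · exact (h3 c h4).le
      · exact h2 c (by simp [hpq, h4])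
    -- `p` begins with `h`
    obtain ⟨p', rfl⟩ : ∃ p', p = h :: p' := by
      cases p with
      | nil => rw [ht] at hpq; simp at hpq; omega
      | cons x p' => rw [ht] at hpq; simp at hpq; exact ⟨p', by rw [hpq.1]⟩
    have hsub : ∀ l, l <+ a :: (q ++ L2.flatten) → h :: l <+ (L1 ++ C :: L2).flatten := by
      intro l hl
      rw [e, List.append_assoc]
      refine List.Sublist.trans ?_ (List.sublist_append_right _ _)
      exact (List.Sublist.trans hl (List.sublist_append_right _ _)).cons_cons h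
    have hnd : ∀ y ∈ a :: q, y < h := by
      intro y hy
      have h5 : y ≤ h := h2 y (by rw [hpq]; simp only [List.mem_append]; exact Or.inr hy)
      rcases Nat.lt_or_eq_of_le h5 with h5 | h5
      · exact h5
      · exfalso
        have : [h, y] <+ (L1 ++ C :: L2).flatten :=
          hsub [y] (List.singleton_sublist.2 (by
            rw [← List.cons_append]; exact List.mem_append_left _ hy))
        have := this.nodup hw
        simp [h5] at this
    have hb2 : b ∈ L2.flatten := by
      obtain ⟨s, t', hst, hs1, ht1⟩ := List.sublist_append_iff.1 s2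
      by_contra hb
      have hbt : b ∉ t' := fun hx => hb (ht1.subset hx)
      have ht0 : t' = [] := by
        rcases List.eq_nil_or_concat' t' with h0 | ⟨t'', z, rfl⟩
        · exact h0
        · exfalso
          rw [← List.append_assoc] at hst
          have := List.append_inj_right' (s₁ := [d]) (t₁ := [b]) hst rfl
          simp at this; simp [this] at hbt
      subst ht0
      simp at hst; subst hst
      refine h321 ⟨b, d, h, by omega, hnd d (List.mem_cons_of_mem _ (hs1.subset (by simp))), ?_⟩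
      exact hsub _ ((hs1.trans (List.sublist_append_left _ _)).cons a)
    obtain ⟨r, z, hrz⟩ : ∃ r z, a :: q = r ++ [z] := by
      rcases List.eq_nil_or_concat' (a :: q) with h0 | h0
      · simp at h0
      · exact h0
    have hzb : [z, b] <+ a :: (q ++ L2.flatten) := by
      rw [← List.cons_append, hrz, List.append_assoc]
      refine List.Sublist.trans ?_ (List.sublist_append_right _ _)
      exact (List.singleton_sublist.2 hb2).cons_cons z
    have hz : z < h := hnd z (by rw [hrz]; simp)
    have h6 := hsub _ hzb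
    have hne : z ≠ b := by
      intro h0
      have := h6.nodup hw
      simp [h0] at this
    have hzb' : z < b := by
      by_contra h0
      exact h321 ⟨b, z, h, by omega, hz, h6⟩
    refine hA ⟨z, b, h, hzb', by omega, (List.sublist_cons_self h _).trans h6, _, hL, rfl, C, by simp,
      Or.inr ⟨h :: p' ++ r, ?_, rfl⟩⟩
    rw [hpq, hrz]; simp
  · rintro hB ⟨x, y, z, hxy, hyz, hs, L, hL, rfl, C, hC, hN⟩
    obtain ⟨L1, L2, rfl⟩ := List.append_of_mem hC
    obtain ⟨⟨t, ht⟩, h2, -, h4⟩ := std_split hL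
    set h := C.headI with hh
    rcases hN with ⟨p, q, hpq⟩ | ⟨p, hp, rfl⟩
    · have e : (L1 ++ C :: L2).flatten = (L1.flatten ++ p) ++ x :: (z :: q ++ L2.flatten) := by
        simp [hpq]
      have hw' := hw
      have hs' := hs
      rw [e] at hs' hw'
      obtain ⟨-, s2⟩ := split_sub (l1 := []) (l2 := [y]) hw' hs'
      have hy : y ∈ q ++ L2.flatten := by
        have := s2.subset (List.mem_singleton_self y)
        rw [List.cons_append] at this
        rcases List.mem_cons.1 this with h0 | h0
        · omega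
        · exact h0
      have hzh : z ≤ h := h2 z (by simp [hpq])
      obtain ⟨p', rfl⟩ : ∃ p', p = h :: p' := by
        cases p with
        | nil => rw [ht] at hpq; simp at hpq; omega
        | cons x p' => rw [ht] at hpq; simp at hpq; exact ⟨p', by rw [hpq.1]⟩
      have h6 : [h, z, y] <+ (L1 ++ C :: L2).flatten := by
        rw [e, List.append_assoc]
        refine List.Sublist.trans ?_ (List.sublist_append_right _ _)
        refine List.Sublist.cons_cons h (List.Sublist.trans ?_ (List.sublist_append_right _ _))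
        exact ((List.singleton_sublist.2 hy).cons_cons z).cons x
      have hne : h ≠ z := by
        intro h0
        have := h6.nodup hw
        simp [h0] at this
      exact h321 ⟨y, z, h, hyz, by omega, h6⟩
    · have e : (L1 ++ C :: L2).flatten = (L1.flatten ++ p) ++ x :: L2.flatten := by
        simp [hp]
      have hw' := hw
      have hs' := hs
      rw [e] at hs' hw'
      obtain ⟨-, s2⟩ := split_sub (l1 := []) (l2 := [y]) hw' hs'
      obtain ⟨d, hd, hdy⟩ := h4 y (s2.subset (List.mem_singleton_self y)) hyz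
      obtain ⟨p', rfl⟩ : ∃ p', p = h :: p' := by
        cases p with
        | nil => rw [ht] at hp; simp at hp; omega
        | cons x p' => rw [ht] at hp; simp at hp; exact ⟨p', by rw [hp.1]⟩
      refine hB ⟨x, y, h, d, hxy, hyz, hd, ?_⟩
      rw [e, List.append_assoc]
      refine List.Sublist.trans ?_ (List.sublist_append_right _ _)
      refine List.Sublist.cons_cons h (List.Sublist.trans ?_ (List.sublist_append_right _ _))
      exact hdy.cons_cons x

def Good (w : List ℕ) : Prop := Av321 w ∧ Av3142 w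

def P (u v : List ℕ) : Prop :=
  (∀ a b, a < b → ¬ [b, a] <+ v) ∧ ∀ a b c, a < b → b < c → [c, a] <+ u → b ∉ v

theorem sub_skip {l u v : List ℕ} {N : ℕ} (h : l <+ u ++ N :: v) :
    l <+ u ++ v ∨ ∃ l1 l2, l = l1 ++ N :: l2 ∧ l1 <+ u ∧ l2 <+ v := by
  obtain ⟨s, t, rfl, hs, ht⟩ := List.sublist_append_iff.1 h
  rcases List.sublist_cons_iff.1 ht with ht | ⟨r, rfl, hr⟩
  · exact Or.inl (hs.append ht)
  · exact Or.inr ⟨s, r, rfl, hs, hr⟩

theorem good_insert {u v : List ℕ} {N : ℕ} (hu : ∀ x ∈ u, x < N) (hv : ∀ x ∈ v, x < N) :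
    Good (u ++ N :: v) ↔ Good (u ++ v) ∧ P u v := by
  have hsub : u ++ v <+ u ++ N :: v := (List.sublist_cons_self N v).append_left u
  constructor
  · rintro ⟨h1, h2⟩
    refine ⟨⟨?_, ?_⟩, ?_, ?_⟩
    · rintro ⟨a, b, c, hab, hbc, hs⟩
      exact h1 ⟨a, b, c, hab, hbc, hs.trans hsub⟩
    · rintro ⟨a, b, c, d, hab, hbc, hcd, hs⟩
      exact h2 ⟨a, b, c, d, hab, hbc, hcd, hs.trans hsub⟩
    · intro a b hab hs
      exact h1 ⟨a, b, N, hab, hv b (hs.subset (by simp)),
        (hs.cons_cons N).trans (List.sublist_append_right _ _)⟩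
    · intro a b c hab hbc hs hb
      exact h2 ⟨a, b, c, N, hab, hbc, hu c (hs.subset (by simp)),
        hs.append ((List.singleton_sublist.2 hb).cons_cons N)⟩
  · rintro ⟨⟨h1, h2⟩, h3, h4⟩
    constructor
    · rintro ⟨a, b, c, hab, hbc, hs⟩
      rcases sub_skip hs with hs | ⟨l1, l2, e, s1, s2⟩
      · exact h1 ⟨a, b, c, hab, hbc, hs⟩
      · rcases l1 with _ | ⟨x, _ | ⟨y, _ | ⟨z, l1⟩⟩⟩
        · simp at e; obtain ⟨-, rfl⟩ := e; exact h3 a b hab s2
        · simp at e; have := hu x (s1.subset (by simp)); omega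
        · simp at e; have := hu x (s1.subset (by simp)); omega
        · simp at e
    · rintro ⟨a, b, c, d, hab, hbc, hcd, hs⟩
      rcases sub_skip hs with hs | ⟨l1, l2, e, s1, s2⟩
      · exact h2 ⟨a, b, c, d, hab, hbc, hcd, hs⟩
      · rcases l1 with _ | ⟨x, _ | ⟨y, _ | ⟨z, _ | ⟨z', l1⟩⟩⟩⟩
        · simp at e; obtain ⟨e1, rfl⟩ := e; have := hv d (s2.subset (by simp)); omega
        · simp at e; have := hu x (s1.subset (by simp)); omega
        · simp at e; obtain ⟨rfl, rfl, -, rfl⟩ := e
          exact h4 a b c hab hbc s1 (s2.subset (by simp))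
        · simp at e; have := hu x (s1.subset (by simp)); omega
        · simp at e

def G (n : ℕ) : Set (List ℕ) := {w | w ~ List.range' 1 n ∧ Good w}
def X (n : ℕ) : Set (List ℕ × List ℕ) :=
  {x | x.1 ++ x.2 ~ List.range' 1 n ∧ Good (x.1 ++ x.2) ∧ P x.1 x.2}
def H (n : ℕ) : Set (List ℕ × List ℕ) := {x | x ∈ X n ∧ x.2 ≠ []}

theorem lt_of_perm {w : List ℕ} {n : ℕ} (h : w ~ List.range' 1 n) : ∀ x ∈ w, x < n + 1 := by
  intro x hx
  have := h.subset hx
  simp [List.mem_range'_1] at this
  omega

theorem perm_succ {u v : List ℕ} {n : ℕ} :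
    u ++ (n + 1) :: v ~ List.range' 1 (n + 1) ↔ u ++ v ~ List.range' 1 n := by
  rw [List.range'_concat, show 1 + 1 * n = n + 1 by omega]
  constructor
  · intro h
    exact (List.perm_middle.symm.trans (h.trans (List.perm_append_singleton _ _))).cons_inv
  · intro h
    exact List.perm_middle.trans ((h.cons _).trans (List.perm_append_singleton _ _).symm)

theorem G_fin (n : ℕ) : (G n).Finite :=
  (List.finite_toSet (List.range' 1 n).permutations).subset fun w hw =>
    List.mem_permutations.2 hw.1

theorem G_succ (n : ℕ) : G (n + 1) = (fun x => x.1 ++ (n + 1) :: x.2) '' X n := by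
  ext w
  constructor
  · rintro ⟨h1, h2⟩
    have : n + 1 ∈ w := h1.symm.subset (by simp [List.mem_range'_1])
    obtain ⟨u, v, rfl⟩ := List.append_of_mem this
    have h3 := perm_succ.1 h1
    have h4 := lt_of_perm h3
    exact ⟨(u, v), ⟨h3, (good_insert (fun x hx => h4 x (by simp [hx]))
      (fun x hx => h4 x (by simp [hx]))).1 h2⟩, rfl⟩
  · rintro ⟨⟨u, v⟩, ⟨h3, h2⟩, rfl⟩
    have h4 := lt_of_perm h3
    exact ⟨perm_succ.2 h3, (good_insert (fun x hx => h4 x (by simp [hx]))
      (fun x hx => h4 x (by simp [hx]))).2 h2⟩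

theorem G_inj (n : ℕ) : Set.InjOn (fun x : List ℕ × List ℕ => x.1 ++ (n + 1) :: x.2) (X n) := by
  rintro ⟨u, v⟩ hx ⟨u', v'⟩ - e
  have h4 := lt_of_perm hx.1
  have h5 : n + 1 ∉ u := fun h => lt_irrefl _ (h4 _ (by simp [h]))
  have h6 : n + 1 ∉ v := fun h => lt_irrefl _ (h4 _ (by simp [h]))
  obtain ⟨e1, -, e2⟩ := (List.append_cons_inj_of_notMem h5 h6).1 e
  exact Prod.ext e1 e2

theorem X_fin (n : ℕ) : (X n).Finite :=
  (Set.finite_image_iff (G_inj n)).1 (G_succ n ▸ G_fin (n + 1))

theorem H_fin (n : ℕ) : (H n).Finite := (X_fin n).subset fun _ h => h.1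

theorem P_nil (u : List ℕ) : P u [] := ⟨fun a b _ h => by simp at h, fun a b c _ _ _ => by simp⟩

theorem X_card (n : ℕ) : (X n).ncard = (G n).ncard + (H n).ncard := by
  have e : X n = (fun w => (w, ([] : List ℕ))) '' G n ∪ H n := by
    ext ⟨u, v⟩
    constructor
    · intro h
      by_cases hv : v = []
      · subst hv
        exact Or.inl ⟨u, ⟨by simpa using h.1, by simpa using h.2.1⟩, rfl⟩
      · exact Or.inr ⟨h, hv⟩
    · rintro (⟨w, hw, e⟩ | h)
      · obtain ⟨rfl, rfl⟩ := Prod.mk.inj e
        exact ⟨by simpa using hw.1, by simpa using hw.2, P_nil _⟩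
      · exact h.1
  rw [e, Set.ncard_union_eq _ ((G_fin n).image _) (H_fin n),
    Set.ncard_image_of_injective _ (fun a b h => (Prod.mk.inj h).1)]
  rw [Set.disjoint_left]
  rintro _ ⟨w, -, rfl⟩ h
  exact h.2 rfl

theorem caseA {u v : List ℕ} {n : ℕ} : (u, v ++ [n + 1]) ∈ X (n + 1) ↔ (u, v) ∈ X n := by
  simp only [X, Set.mem_setOf_eq, ← List.append_assoc]
  rw [perm_succ, List.append_nil]
  refine and_congr_right fun h3 => ?_
  have h4 := lt_of_perm h3
  rw [good_insert h4 (by simp), List.append_nil, and_iff_left (P_nil _)]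
  refine and_congr_right fun _ => ⟨fun ⟨h1, h2⟩ => ⟨?_, ?_⟩, fun ⟨h1, h2⟩ => ⟨?_, ?_⟩⟩
  · exact fun a b hab hs => h1 a b hab (hs.trans (List.sublist_append_left _ _))
  · exact fun a b c hab hbc hs hb => h2 a b c hab hbc hs (by simp [hb])
  · intro a b hab hs
    rcases sub_skip hs with hs | ⟨l1, l2, e, s1, s2⟩
    · exact h1 a b hab (by simpa using hs)
    · simp at s2; subst s2
      rcases l1 with _ | ⟨x, _ | ⟨y, l1⟩⟩
      · simp at e
      · simp at e; have := h4 x (by simp [s1.subset (List.mem_singleton_self x)]); omega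
      · simp at e
  · intro a b c hab hbc hs hb
    rcases List.mem_append.1 hb with hb | hb
    · exact h2 a b c hab hbc hs hb
    · simp at hb
      have := h4 c (by simp [hs.subset (List.mem_cons_self)]); omega

theorem caseB {u v : List ℕ} {n : ℕ} : (u ++ [n + 1], v) ∈ X (n + 1) ↔ (u, v) ∈ X n := by
  simp only [X, Set.mem_setOf_eq, List.append_assoc, List.singleton_append]
  rw [perm_succ]
  refine and_congr_right fun h3 => ?_
  have h4 := lt_of_perm h3
  rw [good_insert (fun x hx => h4 x (by simp [hx])) (fun x hx => h4 x (by simp [hx]))]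
  refine ⟨fun h => h.1, fun h => ⟨h, h.2.1, ?_⟩⟩
  intro a b c hab hbc hs hb
  rcases sub_skip hs with hs | ⟨l1, l2, e, s1, s2⟩
  · exact h.2.2 a b c hab hbc (by simpa using hs) hb
  · simp at s2; subst s2
    rcases l1 with _ | ⟨x, _ | ⟨y, l1⟩⟩
    · simp at e
    · simp at e; have := h4 b (by simp [hb]); omega
    · simp at e

theorem H_card (n : ℕ) : (H (n + 1)).ncard = (X n).ncard + (H n).ncard := by
  have e : H (n + 1) = (fun x => (x.1, x.2 ++ [n + 1])) '' X n ∪
      (fun x => (x.1 ++ [n + 1], x.2)) '' H n := by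
    ext ⟨u, v⟩
    constructor
    · rintro ⟨h, hv⟩
      have h4 := lt_of_perm h.1
      have hnd : (u ++ v).Nodup := h.1.nodup_iff.2 (List.nodup_range' _)
      have : n + 1 ∈ u ++ v := h.1.symm.subset (by simp [List.mem_range'_1])
      rcases List.mem_append.1 this with hm | hm
      · obtain ⟨u1, u2, rfl⟩ := List.append_of_mem hm
        rcases u2 with _ | ⟨a, u2⟩
        · exact Or.inr ⟨(u1, v), ⟨caseB.1 h, hv⟩, rfl⟩
        · exfalso
          obtain ⟨b, hb⟩ := List.exists_mem_of_ne_nil v hv
          have s1 : [n + 1, a] <+ u1 ++ (n + 1) :: a :: u2 :=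
            List.Sublist.trans (by simp) (List.sublist_append_right _ _)
          have s2 : [n + 1, a, b] <+ (u1 ++ (n + 1) :: a :: u2) ++ v :=
            s1.append (List.singleton_sublist.2 hb)
          have h5 := s2.nodup hnd
          have h6 := h4 a (s2.subset (by simp))
          have h7 := h4 b (s2.subset (by simp))
          simp at h5
          rcases Nat.lt_or_ge a b with hab | hab
          · exact h.2.2.2 a b (n + 1) hab (by omega) s1 hb
          · exact h.2.1.1 ⟨b, a, n + 1, by omega, by omega, s2⟩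
      · obtain ⟨v1, v2, rfl⟩ := List.append_of_mem hm
        rcases v2 with _ | ⟨a, v2⟩
        · exact Or.inl ⟨(u, v1), caseA.1 h, rfl⟩
        · exfalso
          have s1 : [n + 1, a] <+ v1 ++ (n + 1) :: a :: v2 :=
            List.Sublist.trans (by simp) (List.sublist_append_right _ _)
          have s2 : [n + 1, a] <+ u ++ (v1 ++ (n + 1) :: a :: v2) :=
            s1.trans (List.sublist_append_right _ _)
          have h5 := s2.nodup hnd
          have h6 := h4 a (s2.subset (by simp))
          simp at h5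
          exact h.2.2.1 a (n + 1) (by omega) s1
    · rintro (⟨⟨u', v'⟩, hw, e⟩ | ⟨⟨u', v'⟩, hw, e⟩)
      · obtain ⟨rfl, rfl⟩ := Prod.mk.inj e
        exact ⟨caseA.2 hw, by simp⟩
      · obtain ⟨rfl, rfl⟩ := Prod.mk.inj e
        exact ⟨caseB.2 hw.1, hw.2⟩
  rw [e, Set.ncard_union_eq _ ((X_fin n).image _) ((H_fin n).image _),
    Set.ncard_image_of_injective, Set.ncard_image_of_injective]
  · rintro ⟨a, b⟩ ⟨c, d⟩ h
    simpa using h
  · rintro ⟨a, b⟩ ⟨c, d⟩ h
    simpa using h
  · rw [Set.disjoint_left]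
    rintro _ ⟨⟨u, v⟩, h, rfl⟩ ⟨⟨u', v'⟩, -, e⟩
    obtain ⟨e1, -⟩ := Prod.mk.inj e
    have := lt_of_perm h.1 (n + 1) (List.mem_append_left _ (by rw [← e1]; simp))
    omega

theorem counts (n : ℕ) : (X n).ncard = Nat.fib (2 * n + 1) ∧ (H n).ncard = Nat.fib (2 * n) := by
  induction n with
  | zero =>
    have h0 : H 0 = ∅ := by
      ext ⟨u, v⟩
      simp only [H, X, Set.mem_setOf_eq, Set.mem_empty_iff_false, iff_false]
      rintro ⟨⟨h, -⟩, hv⟩
      simp at h
      exact hv h.2
    have h1 : G 0 = {[]} := by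
      ext w
      simp only [G, Set.mem_setOf_eq, Set.mem_singleton_iff]
      constructor
      · rintro ⟨h, -⟩; simpa using h
      · rintro rfl
        exact ⟨by simp, by simp [Av321], by simp [Av3142]⟩
    rw [X_card, h0, h1]; simp
  | succ n ih =>
    have h1 := H_card n
    have h2 := X_card (n + 1)
    rw [G_succ, Set.ncard_image_of_injOn (G_inj n)] at h2
    have h3 : Nat.fib (2 * (n + 1)) = Nat.fib (2 * n) + Nat.fib (2 * n + 1) := Nat.fib_add_two
    have h4 : Nat.fib (2 * (n + 1) + 1) = Nat.fib (2 * n + 1) + Nat.fib (2 * (n + 1)) :=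
      Nat.fib_add_two
    omega

theorem result (n : ℕ) (hn : 2 ≤ n) :
    {w : List ℕ | w ~ List.range' 1 n ∧ Av321 w ∧ AvArrow w}.ncard = Nat.fib (2 * n - 1) := by
  obtain ⟨m, rfl⟩ : ∃ m, n = m + 1 := ⟨n - 1, by omega⟩
  have e : {w : List ℕ | w ~ List.range' 1 (m + 1) ∧ Av321 w ∧ AvArrow w} = G (m + 1) := by
    ext w
    refine and_congr_right fun h => and_congr_right fun h1 => ?_
    exact arrow_iff (h.nodup_iff.2 (List.nodup_range' _)) h1
  rw [e, G_succ, Set.ncard_image_of_injOn (G_inj m), (counts m).1]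
  congr 1

end Pool.Agent.Results.MP_1ce666_co.Count
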